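import Mathlib
import Pool.Agent.H993.MD.G

/-!
# The Lee-Huang-Yang law for the energy of lattice bosons at all densities

Lattice bosons at large filling (quantum rotors) on the torus `(ℤ/L)^d`, `d ≥ 2`, at zero
temperature, with the on-site repulsion `U ∑ (n_x - ν_x)²` (`n_x` is the number of particles at `x`,
counted from a large filling, `ν` an arbitrary real background or disorder), hopping of strength one
between nearest neighbours and an arbitrary number `N` of particles. We prove the expansion of the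
ground state energy as `U → 0` up to the second order: the classical energy
`U (N - ∑ ν_x)² / L^d - d L^d` and the zero point energy of Bogoliubov's phonons,
`(1 + o(1)) ∑_{k ≠ 0} √(2 U λ_k) / 2`, uniformly in the volume, the number of particles and the
disorder.

The energy of the neutral ground state is the sum over the momenta of `λ_k n(k) / 2 + U S(k)` with
the occupation `n(k)` and the static structure factor `S(k)` of the momentum `k`. Both are known mode
by mode, `n(k) = (1 + o(1)) √(U / (2 λ_k))` (`MomentumDistribution`) and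
`S(k) = (1 + o(1)) √(λ_k / (8 U))`; the second law is proved here by the uncertainty relation (lower
bound) and the response of the energy to a modulation of the background (upper bound). The other
densities are compared with the neutral one by the library theorem that the neutral energy is the
lowest one.
-/

namespace Pool.Agent.H993.Kept.GroundStateEnergy

section

variable {V : Type} [Fintype V] [DecidableEq V]

/-- `ψ` is a normalised wave function of finite energy with `N` particles on the finite lattice `V`.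
A configuration `n : V → ℤ` gives the number of particles at each site, counted from a large
uniform filling. -/
structure IsState (N : ℤ) (ψ : (V → ℤ) → ℂ) : Prop where
  particles : ∀ n, ψ n ≠ 0 → ∑ x, n x = N
  normalised : HasSum (fun n => ‖ψ n‖ ^ 2) 1
  finite_energy : Summable fun n : V → ℤ => (∑ x, (n x : ℝ) ^ 2) * ‖ψ n‖ ^ 2

/-- The one-particle correlation `⟨ψ, a_x^* a_y ψ⟩`, where the operator `a_x^* a_y` moves a particle
from `y` to `x` (amplitude one, `a_x^* a_y = e^{i (θ_x - θ_y)}`). -/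
noncomputable def correlation (x y : V) (ψ : (V → ℤ) → ℂ) : ℂ :=
  ∑' n : V → ℤ, (starRingEnd ℂ) (ψ (n + Pi.single x 1 - Pi.single y 1)) * ψ n

/-- The expectation in `ψ` of the Hamiltonian
`∑_{x,y} K_{xy} (n_x - ν_x) (n_y - ν_y) - ∑_{x,y} w_{xy} (a_x^* a_y + a_y^* a_x) / 2`. -/
noncomputable def energy (K : Matrix V V ℝ) (w : V → V → ℝ) (ν : V → ℝ) (ψ : (V → ℤ) → ℂ) : ℝ :=
  (∑' n : V → ℤ, (∑ x, ∑ y, K x y * (((n x : ℝ) - ν x) * ((n y : ℝ) - ν y))) * ‖ψ n‖ ^ 2)
    - ∑ x, ∑ y, w x y * (correlation x y ψ).re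

/-- `ψ` is a ground state of the system with `N` particles. -/
def IsGroundState (K : Matrix V V ℝ) (w : V → V → ℝ) (ν : V → ℝ) (N : ℤ)
    (ψ : (V → ℤ) → ℂ) : Prop :=
  IsState N ψ ∧ ∀ φ, IsState N φ → energy K w ν ψ ≤ energy K w ν φ

theorem isState_iff (N : ℤ) (ψ : (V → ℤ) → ℂ) :
    IsState N ψ ↔ Pool.Agent.N657.QR.IsState N ψ :=
  ⟨fun h => ⟨h.1, h.2, h.3⟩, fun h => ⟨h.1, h.2, h.3⟩⟩

theorem isGroundState_iff (K : Matrix V V ℝ) (w : V → V → ℝ) (ν : V → ℝ) (N : ℤ)
    (ψ : (V → ℤ) → ℂ) :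
    IsGroundState K w ν N ψ ↔ Pool.Agent.N657.QR.IsGroundState K w ν N ψ := by
  unfold IsGroundState Pool.Agent.N657.QR.IsGroundState
  simp only [isState_iff]
  exact Iff.rfl

end

/-- Hopping of strength one between nearest neighbours of the torus `(ℤ/L)^d`: the number of the
coordinate directions `i` with `y = x + e_i`. -/
def hopping {d L : ℕ} (x y : Fin d → ZMod L) : ℝ :=
  ∑ i : Fin d, if y = x + Pi.single i 1 then 1 else 0

/-- The eigenvalue `λ_k = ∑_i (2 - 2 cos (2πk_i/L))` of the lattice Laplacian. -/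
noncomputable def dispersion {d L : ℕ} (k : Fin d → ZMod L) : ℝ :=
  ∑ i, (2 - 2 * Real.cos (2 * Real.pi * ((k i).val : ℝ) / L))

/-- The zero point energy of Bogoliubov's phonons, whose energies are `√(2 U λ_k)`. -/
noncomputable def zeroPoint (d L : ℕ) [NeZero L] (U : ℝ) : ℝ :=
  ∑ k ∈ (Finset.univ : Finset (Fin d → ZMod L)).erase 0, Real.sqrt (2 * U * dispersion k) / 2

/-- All ground states have the energy of the library. -/
theorem energy_eq {V : Type} [Fintype V] [DecidableEq V] [Nonempty V] {K : Matrix V V ℝ}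
    {w : V → V → ℝ} {ν : V → ℝ} {N : ℤ} (hK : K.PosDef) (hw : ∀ x y, 0 ≤ w x y)
    (hc : Pool.Agent.N657.QR.Conn w) :
    (∃ ψ, IsGroundState K w ν N ψ) ∧
      ∀ ψ, IsGroundState K w ν N ψ → energy K w ν ψ = Pool.Agent.N657.QR.en K w ν N := by
  obtain ⟨Φ, hΦ⟩ := Pool.Agent.N657.QR.ex K w ν N hK hw
  obtain ⟨h1, h2⟩ := Pool.Agent.N657.QR.cpx K w ν N Φ hK hw hc hΦ
  refine ⟨⟨_, (isGroundState_iff K w ν N _).2 h1⟩, ?_⟩
  intro ψ hψ
  obtain ⟨⟨c, hc1, hcψ⟩, hcr⟩ := h2 ψ ((isGroundState_iff K w ν N ψ).1 hψ)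
  rw [← hΦ.2.2.2]
  unfold energy Pool.Agent.N657.QR.FF Pool.Agent.N657.QR.po
  congr 1
  · refine tsum_congr fun n => ?_
    rw [hcψ, norm_mul, hc1, one_mul, Complex.norm_real, Real.norm_eq_abs, sq_abs]
    rfl
  · refine Finset.sum_congr rfl fun x _ => Finset.sum_congr rfl fun y _ => ?_
    rw [← hcr x y]
    rfl

/-- **The Lee-Huang-Yang law for the energy at all densities.** Let `d ≥ 2` and `ε > 0`. If `U > 0`
is small enough and the even side `L` of the torus is large enough, then for every background `ν` and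
every number `N` of particles there is a ground state, and the energy `E` of all ground states
satisfies `|E - (U (N - ∑ ν_x)² / L^d - d L^d + Z)| ≤ ε Z`, where `Z = ∑_{k ≠ 0} √(2 U λ_k) / 2` is the
zero point energy of the phonons. -/
theorem result (d : ℕ) (hd : 2 ≤ d) (ε : ℝ) (hε : 0 < ε) :
    ∃ U₀ : ℝ, 0 < U₀ ∧ ∀ U : ℝ, 0 < U → U ≤ U₀ → ∃ L₀ : ℕ, ∀ (L : ℕ) [NeZero L], L₀ ≤ L →
      Even L → ∀ (ν : (Fin d → ZMod L) → ℝ) (N : ℤ),
      (∃ ψ, IsGroundState (U • (1 : Matrix (Fin d → ZMod L) (Fin d → ZMod L) ℝ)) hopping ν N ψ) ∧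
      ∀ ψ, IsGroundState (U • (1 : Matrix (Fin d → ZMod L) (Fin d → ZMod L) ℝ)) hopping ν N ψ →
        |energy (U • (1 : Matrix (Fin d → ZMod L) (Fin d → ZMod L) ℝ)) hopping ν ψ -
          (U * (((N : ℝ) - ∑ x, ν x) ^ 2 / (L : ℝ) ^ d) - d * (L : ℝ) ^ d + zeroPoint d L U)| ≤
          ε * zeroPoint d L U := by
  obtain ⟨U₀, hU₀, h⟩ := Pool.Agent.H993.MD.energy_law d hd ε hε
  refine ⟨U₀, hU₀, fun U hU hUU => ?_⟩
  obtain ⟨L₀, hL₀⟩ := h U hU hUU
  refine ⟨L₀, fun L _ hL hev ν N => ?_⟩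
  have h1 := hL₀ L hL hev ν N
  have hPD := Pool.Agent.H993.DM.pd_one (d := d) (L := L) hU
  have hhop : (hopping : (Fin d → ZMod L) → (Fin d → ZMod L) → ℝ) =
      Pool.Agent.N657.QR.nnw 1 := rfl
  have hnn : ∀ x y : Fin d → ZMod L, 0 ≤ Pool.Agent.N657.QR.nnw 1 x y := fun x y =>
    Pool.Agent.N498.QL_SYM.nnw_nonneg x y
  have hcn := Pool.Agent.H993.DM.conn_of (d := d) (L := L) (w := Pool.Agent.N657.QR.nnw 1)
    (fun _ _ => le_rfl)
  have hcard : ((Fintype.card (Fin d → ZMod L) : ℕ) : ℝ) = (L : ℝ) ^ d := by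
    simp [ZMod.card]
  have hz : zeroPoint d L U = ∑ k ∈ (Finset.univ : Finset (Fin d → ZMod L)).erase 0,
      Real.sqrt (U * Pool.Agent.N657.QR.lam k / 2) := by
    unfold zeroPoint
    refine Finset.sum_congr rfl fun k _ => ?_
    rw [Pool.Agent.H993.MD.sqrt_quarter]
    have e1 : dispersion k = Pool.Agent.N657.QR.lam k := rfl
    rw [e1]
    congr 1
    ring
  rw [hhop, hz]
  rw [hcard] at h1
  obtain ⟨h2, h3⟩ := energy_eq (ν := ν) (N := N) hPD hnn hcn
  refine ⟨h2, fun ψ hψ => ?_⟩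
  rw [h3 ψ hψ]
  exact h1

end Pool.Agent.H993.Kept.GroundStateEnergy
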