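import Mathlib
import Pool.Agent.H993.CT.Main
import Pool.Agent.H993.ZT.P4

/-!
# Bose-Einstein condensation in the ground state, in containers of arbitrary shape

Lattice bosons at large filling (quantum rotors) in a container with hard walls: the sites are the
lattice points of `L D`, where `D` is a bounded connected open subset of `ℝ^d`, `d ≥ 2`, with a
boundary of measure zero, of arbitrary shape; there is no periodicity and no symmetry. The repulsion
is `∑ K_xy (n_x - ν_x)(n_y - ν_y)` with a positive definite matrix `K ≤ U` (of any range), the hopping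
amplitudes `w_xy ≥ 0` are at least `J` between nearest neighbours and connect all the sites, the site
offsets `ν_x` (background, external trap, disorder) are arbitrary real numbers, and the number of
particles is an arbitrary number `N`.

There is a ground state, it is unique up to a phase, and for each `η > 0` and all large `L` its
condensate fraction is at least `1 - η - C √(U/J)`, with a constant `C` depending only on `D` and `η`.
-/

namespace Pool.Agent.H993.Kept.GroundStatesInContainers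

open Filter Topology

section

variable {V : Type} [Fintype V] [DecidableEq V]

/-- `ψ` is a normalised wave function of finite energy with `N` particles on the finite set `V` of
sites. A configuration `n : V → ℤ` gives the number of particles at each site, counted from a large
uniform filling. -/
structure IsState (N : ℤ) (ψ : (V → ℤ) → ℂ) : Prop where
  particles : ∀ n, ψ n ≠ 0 → ∑ x, n x = N
  normalised : HasSum (fun n => ‖ψ n‖ ^ 2) 1
  finite_energy : Summable fun n : V → ℤ => (∑ x, (n x : ℝ) ^ 2) * ‖ψ n‖ ^ 2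

/-- The one-particle correlation `⟨ψ, a_x^* a_y ψ⟩`, where the operator `a_x^* a_y` moves a particle
from `y` to `x` (amplitude one, `a_x^* a_y = e^{i (θ_x - θ_y)}`). -/
noncomputable def correlation (x y : V) (ψ : (V → ℤ) → ℂ) : ℂ :=
  ∑' n : V → ℤ, (starRingEnd ℂ) (ψ (n + Pi.single x 1 - Pi.single y 1)) * ψ n

/-- The expectation in `ψ` of the Hamiltonian
`∑_{x,y} K_{xy} (n_x - ν_x) (n_y - ν_y) - ∑_{x,y} w_{xy} (a_x^* a_y + a_y^* a_x) / 2`. -/
noncomputable def energy (K : Matrix V V ℝ) (w : V → V → ℝ) (ν : V → ℝ) (ψ : (V → ℤ) → ℂ) : ℝ :=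
  (∑' n : V → ℤ, (∑ x, ∑ y, K x y * (((n x : ℝ) - ν x) * ((n y : ℝ) - ν y))) * ‖ψ n‖ ^ 2)
    - ∑ x, ∑ y, w x y * (correlation x y ψ).re

/-- `ψ` is a ground state of the system with `N` particles. -/
def IsGroundState (K : Matrix V V ℝ) (w : V → V → ℝ) (ν : V → ℝ) (N : ℤ)
    (ψ : (V → ℤ) → ℂ) : Prop :=
  IsState N ψ ∧ ∀ φ, IsState N φ → energy K w ν ψ ≤ energy K w ν φ

/-- The condensate fraction: the expectation of the occupation of the constant mode,
`|V|⁻¹ ∑_{x,y} ⟨a_x^* a_y⟩`, divided by the number of sites (`⟨a_x^* a_x⟩ = 1`). -/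
noncomputable def condensate (ψ : (V → ℤ) → ℂ) : ℝ :=
  (∑ x, ∑ y, (correlation x y ψ).re) / (Fintype.card V : ℝ) ^ 2

theorem isState_iff (N : ℤ) (ψ : (V → ℤ) → ℂ) :
    IsState N ψ ↔ Pool.Agent.N657.QR.IsState N ψ :=
  ⟨fun h => ⟨h.1, h.2, h.3⟩, fun h => ⟨h.1, h.2, h.3⟩⟩

theorem isGroundState_iff (K : Matrix V V ℝ) (w : V → V → ℝ) (ν : V → ℝ) (N : ℤ)
    (ψ : (V → ℤ) → ℂ) :
    IsGroundState K w ν N ψ ↔ Pool.Agent.N657.QR.IsGroundState K w ν N ψ := by
  unfold IsGroundState Pool.Agent.N657.QR.IsGroundState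
  simp only [isState_iff]
  exact Iff.rfl

end

open Pool.Agent.H993.TR Pool.Agent.H993.CT in
/-- **Condensation of the ground state in containers of arbitrary shape with hard walls.** -/
theorem result (d : ℕ) (hd : 2 ≤ d) (D : Set (Fin d → ℝ)) (hDo : IsOpen D) (hDc : IsConnected D)
    (hDb : Bornology.IsBounded D) (hDf : MeasureTheory.volume (frontier D) = 0)
    (η : ℝ) (hη : 0 < η) : ∃ C : ℝ, 0 < C ∧ ∃ L₀ : ℕ, ∀ L : ℕ, L₀ ≤ L →
    ∀ S : Finset (Fin d → ℤ), (∀ x, x ∈ S ↔ (fun i => (x i : ℝ) / L) ∈ D) →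
    ∀ (U J : ℝ) (K : Matrix S S ℝ) (w : S → S → ℝ) (ν : S → ℝ) (N : ℤ),
    0 < U → 0 < J → K.PosDef → (U • (1 : Matrix S S ℝ) - K).PosSemidef →
    (∀ x y, 0 ≤ w x y) → (∀ (x y : S) (i : Fin d), y.1 = x.1 + Pi.single i 1 → J ≤ w x y) →
    (∀ x y : S, Relation.ReflTransGen (fun a b => 0 < w a b ∨ 0 < w b a) x y) →
    (∃ ψ, IsGroundState K w ν N ψ) ∧
    (∀ ψ φ, IsGroundState K w ν N ψ → IsGroundState K w ν N φ →
      ∃ c : ℂ, ‖c‖ = 1 ∧ ∀ n, φ n = c * ψ n) ∧
    ∀ ψ, IsGroundState K w ν N ψ → 1 - η - C * Real.sqrt (U / J) ≤ condensate ψ := by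
  obtain ⟨C, hC, L₀, h⟩ := container_sector hd D hDo hDc hDb hDf η hη
  refine ⟨C, hC, L₀, fun L hL S hS U J K w ν N hU hJ hK hUK hw hwJ hcon => ?_⟩
  obtain ⟨hne, h1⟩ := h L hL S hS
  have : Nonempty S := hne.to_subtype
  have hconn : Pool.Agent.N657.QR.Conn w := Pool.Agent.N657.QR.con.1 w hcon
  obtain ⟨Φ, hΦ⟩ := Pool.Agent.N657.QR.ex K w ν N hK hw
  obtain ⟨hgs, huniq⟩ := Pool.Agent.N657.QR.cpx K w ν N Φ hK hw hconn hΦ
  simp only [isGroundState_iff]
  refine ⟨⟨_, hgs⟩, ?_, ?_⟩
  · intro ψ φ hψ hφ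
    obtain ⟨⟨c, hc, hcψ⟩, -⟩ := huniq ψ hψ
    obtain ⟨⟨c', hc', hcφ⟩, -⟩ := huniq φ hφ
    refine ⟨c' / c, by rw [norm_div, hc, hc', div_one], fun n => ?_⟩
    have hc0 : c ≠ 0 := by
      intro h
      rw [h, norm_zero] at hc
      exact zero_ne_one hc
    rw [hcψ, hcφ]
    field_simp
  · intro ψ hψ
    obtain ⟨-, hcorr⟩ := huniq ψ hψ
    have hn0 : (0:ℝ) < (Fintype.card S : ℝ) := by exact_mod_cast Fintype.card_pos
    have hlim : Tendsto (fun β : ℝ => ∑ x, ∑ y, TI (rs (rotK β K w ν) N) (sh N x y) /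
        TI (rs (rotK β K w ν) N) id) atTop (𝓝 (∑ x, ∑ y, Pool.Agent.N657.QR.cr x y Φ)) :=
      tendsto_finsetSum _ fun x _ => tendsto_finsetSum _ fun y _ =>
        Pool.Agent.H993.ZT.P4.task_zero hK hw hconn hΦ x y
    have hlim2 : Tendsto (fun β : ℝ => (1 - η - C * (Real.sqrt (U / J) + tau d L / (β * J))) *
        (Fintype.card S : ℝ) ^ 2) atTop
        (𝓝 ((1 - η - C * (Real.sqrt (U / J) + 0)) * (Fintype.card S : ℝ) ^ 2)) := by
      refine Tendsto.mul_const _ (Tendsto.const_sub _ (Tendsto.const_mul _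
        (Tendsto.const_add _ ?_)))
      have h2 : Tendsto (fun β : ℝ => β * J) atTop atTop := tendsto_id.atTop_mul_const hJ
      exact Tendsto.div_atTop tendsto_const_nhds h2
    have key : (1 - η - C * (Real.sqrt (U / J) + 0)) * (Fintype.card S : ℝ) ^ 2 ≤
        ∑ x, ∑ y, Pool.Agent.N657.QR.cr x y Φ := by
      refine le_of_tendsto_of_tendsto hlim2 hlim ?_
      filter_upwards [eventually_gt_atTop 0] with β hβ
      have hne' : Nonempty (Sec S N) := by
        obtain ⟨v⟩ := (inferInstance : Nonempty S)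
        exact ⟨⟨Pi.single v N, by simp⟩⟩
      have hA := rotK_adm hβ.le K hw ν
      have hZ : 0 < TI (rs (rotK β K w ν) N) id :=
        TI_pos (rs_adm hA N) (rs_bdd hA (rotK_bdd' hβ hK hw ν) N)
      have h2 := h1 U J β K w ν N hU hJ hβ hK hUK hw hwJ
      simp only [← Finset.sum_div]
      rw [le_div_iff₀ hZ]
      exact h2
    rw [add_zero] at key
    have e : condensate ψ = (∑ x, ∑ y, Pool.Agent.N657.QR.cr x y Φ) /
        (Fintype.card S : ℝ) ^ 2 := by
      unfold condensate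
      congr 1
      exact Finset.sum_congr rfl fun x _ => Finset.sum_congr rfl fun y _ => hcorr x y
    rw [e, le_div_iff₀ (by positivity)]
    exact key

end Pool.Agent.H993.Kept.GroundStatesInContainers
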